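import Mathlib
import Pool.Agent.H.MP_629fd3_an.B

open Set Metric Filter Topology Matrix MeasureTheory
open scoped Manifold ContDiff ComplexOrder

namespace Pool.Agent.Results.MP_629fd3_an.Counter

section defs

variable {n : ℕ} {X : Type} [TopologicalSpace X] [ChartedSpace (Fin n → ℂ) X]

/-- The Hermitian quadratic form of a matrix. -/
noncomputable def form (A : Matrix (Fin n) (Fin n) ℂ) (v : Fin n → ℂ) : ℝ := (star v ⬝ᵥ A *ᵥ v).re

/-- A smooth Hermitian metric, given by its matrices in all charts of the atlas. -/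
def Herm (G : OpenPartialHomeomorph X (Fin n → ℂ) → (Fin n → ℂ) → Matrix (Fin n) (Fin n) ℂ) :
    Prop :=
  (∀ e ∈ atlas (Fin n → ℂ) X, (∀ j k, ContDiffOn ℝ ∞ (fun y => G e y j k) e.target) ∧
    ∀ y ∈ e.target, (G e y).PosDef) ∧
  ∀ e ∈ atlas (Fin n → ℂ) X, ∀ e' ∈ atlas (Fin n → ℂ) X, ∀ y ∈ e.target, e.symm y ∈ e'.source →
    ∀ v, form (G e y) v = form (G e' (e' (e.symm y))) (fderiv ℂ (e' ∘ e.symm) y v)

/-- `ω`-plurisubharmonic functions, tested on complex lines in charts. -/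
def OmegaPsh (G : OpenPartialHomeomorph X (Fin n → ℂ) → (Fin n → ℂ) → Matrix (Fin n) (Fin n) ℂ)
    (φ : X → EReal) : Prop :=
  UpperSemicontinuous φ ∧ (∀ x, φ x ≠ ⊤) ∧ Dense {x | φ x ≠ ⊥} ∧
    ∀ e ∈ atlas (Fin n → ℂ) X, ∀ a v : Fin n → ℂ, ∀ h : ℂ → ℝ, ∀ r > (1 : ℝ),
      (∀ z ∈ ball (0 : ℂ) r, a + z • v ∈ e.target) → ContDiffOn ℝ ∞ h (ball 0 r) →
      (∀ z ∈ ball (0 : ℂ) r, 4 * form (G e (a + z • v)) v ≤ Laplacian.laplacian h z) →
      ∀ c : ℝ, (max (φ (e.symm a) + h 0) c).toReal ≤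
        Real.circleAverage (fun z => (max (φ (e.symm (a + z • v)) + h z) c).toReal) 0 1

end defs

open H.MP_629fd3_an
open H.MP_752b71_an (N smax cN)

variable {n : ℕ}

noncomputable def G (i : Fin (n + 1)) (ε Λ : ℝ) (e : OpenPartialHomeomorph (X n) (E n)) (y : E n) :
    Matrix (Fin n) (Fin n) ℂ := ((ε + Λ * bump i (e.symm y) : ℝ) : ℂ) • FS y

lemma form_smul (t : ℝ) (A : Matrix (Fin n) (Fin n) ℂ) (v) : form ((t : ℂ) • A) v = t * form A v := by
  simp [form, smul_mulVec]

lemma herm (i : Fin (n + 1)) {ε Λ : ℝ} (hε : 0 < ε) (hΛ : 0 ≤ Λ) : Herm (G i ε Λ) := by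
  constructor
  · rintro _ ⟨α, rfl⟩
    refine ⟨fun j k => ContDiff.contDiffOn ?_, fun y _ => (FS_pos y).smul ?_⟩
    · exact (Complex.ofRealCLM.contDiff.comp (contDiff_const.add
        (contDiff_const.mul (bump_smooth α i)))).mul (FS_smooth j k)
    · exact Complex.zero_lt_real.2 (add_pos_of_pos_of_nonneg hε
        (mul_nonneg hΛ (expNegInvGlue.nonneg _)))
  · rintro _ ⟨α, rfl⟩ _ ⟨β, rfl⟩ y - h v
    simp only [G, form_smul, (ch β).left_inv h]
    congr 1
    exact congrArg Complex.re (FS_trans α β h v)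

lemma volume_big (j : Fin n) {ε : ℝ} (hε : 0 < ε) (V : ℝ) : ∃ Λ ≥ (0 : ℝ), ENNReal.ofReal V <
    ∫⁻ y in (ch (0 : Fin (n + 1))).target, ENNReal.ofReal
      (n.factorial * (2 / Real.pi) ^ n * (G j.succ ε Λ (ch 0) y).det.re) := by
  set F : E n → ℝ := fun y => n.factorial * (2 / Real.pi) ^ n *
    (bump j.succ (ci 0 y) ^ n * (FS y).det.re) with hF
  have dp : ∀ y : E n, 0 < (FS y).det.re := fun y => (Complex.pos_iff.1 (FS_pos y).det_pos).1
  have hc : Continuous F := by
    refine continuous_const.mul (((bump_smooth 0 _).continuous.pow n).mul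
      (Complex.continuous_re.comp (Continuous.matrix_det ?_)))
    exact continuous_pi fun j => continuous_pi fun k => (FS_smooth j k).continuous
  have hp : 0 < ∫⁻ y, ENNReal.ofReal (F y) := by
    rw [lintegral_pos_iff_support hc.measurable.ennreal_ofReal]
    refine IsOpen.measure_pos _ (ENNReal.continuous_ofReal.comp hc).isOpen_support
      ⟨Pi.single j 2, (ENNReal.ofReal_pos.2 ?_).ne'⟩
    refine mul_pos (by positivity) (mul_pos (pow_pos (expNegInvGlue.pos_of_pos ?_) n) (dp _))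
    have h1 : s 0 (Pi.single j 2 : E n) j.succ = 2 := by
      simpa using s_1 0 (Pi.single j 2 : E n) j
    have h2 : n2 (Pi.single j 2 : E n) = 4 := by
      rw [n2, Finset.sum_eq_single j] <;> simp +contextual
      norm_num
    rw [ent_ci, h1, h2]
    norm_num
  obtain ⟨k, hk⟩ := ENNReal.exists_nat_mul_gt hp.ne' (ENNReal.ofReal_ne_top (r := V))
  refine ⟨k + 1, by positivity, hk.trans_le ?_⟩
  rw [← lintegral_const_mul _ hc.measurable.ennreal_ofReal]
  erw [Measure.restrict_univ]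
  refine lintegral_mono fun y => ?_
  rw [← ENNReal.ofReal_natCast, ← ENNReal.ofReal_mul (by positivity)]
  refine ENNReal.ofReal_le_ofReal ?_
  have b0 : 0 ≤ bump j.succ (ci 0 y) := expNegInvGlue.nonneg _
  have e : (G j.succ ε (k + 1) (ch 0) y).det.re =
      (ε + (k + 1) * bump j.succ (ci 0 y)) ^ n * (FS y).det.re := by
    rw [G, det_smul, Fintype.card_fin, ← Complex.ofReal_pow, Complex.re_ofReal_mul]; rfl
  have h1 : (k : ℝ) * bump j.succ (ci 0 y) ^ n ≤ (ε + (k + 1) * bump j.succ (ci 0 y)) ^ n := by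
    refine le_trans ?_ (pow_le_pow_left₀ (by positivity) (le_add_of_nonneg_left hε.le) n)
    rw [mul_pow]
    refine mul_le_mul_of_nonneg_right (le_trans ?_ (le_self_pow₀ (by simp) j.pos.ne')) (by positivity)
    simp
  rw [e, hF, mul_left_comm]
  refine mul_le_mul_of_nonneg_left ?_ (by positivity)
  rw [← mul_assoc]
  exact mul_le_mul_of_nonneg_right h1 (dp y).le

lemma tr_eq (u : EReal) (hu : u ≠ ⊤) (c : ℝ) : (((max u c).toReal : ℝ) : EReal) = max u c :=
  EReal.coe_toReal (max_lt hu.lt_top (EReal.coe_lt_top _)).ne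
    (lt_max_of_lt_right (EReal.bot_lt_coe _)).ne'

lemma usc_tr {u : ℂ → EReal} {H : ℂ → ℝ} {z : ℂ} (hu : UpperSemicontinuousAt u z)
    (hH : ContinuousAt H z) (ht : ∀ z, u z ≠ ⊤) (c : ℝ) :
    UpperSemicontinuousAt (fun z => (max (u z + H z) c).toReal) z := by
  have h1 : UpperSemicontinuousAt (fun z => u z + H z) z :=
    hu.add' (continuous_coe_real_ereal.continuousAt.comp hH).upperSemicontinuousAt
      (EReal.continuousAt_add (.inr (EReal.coe_ne_bot _)) (.inr (EReal.coe_ne_top _)))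
  have ht' : ∀ z, u z + H z ≠ ⊤ := fun z => (EReal.add_lt_top (ht z) (EReal.coe_ne_top _)).ne
  intro y hy
  have h2 : max (u z + H z) c < (y : EReal) := by rw [← tr_eq _ (ht' z)]; exact_mod_cast hy
  filter_upwards [h1 y (lt_of_le_of_lt (le_max_left _ _) h2)] with w hw
  have := max_lt hw (lt_of_le_of_lt (le_max_right _ _) h2)
  rw [← tr_eq _ (ht' w)] at this
  exact_mod_cast this

lemma oned {W : ℂ → ℝ} {c δ R : ℝ} (hu : ∀ z ≠ 0, UpperSemicontinuousAt W z) (hc : ∀ z, c ≤ W z)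
    (h0 : 0 < δ) (h1 : ∀ z ≠ 0, ‖z‖ ≤ δ → W z ≤ c) (h2 : ∀ z, R ≤ ‖z‖ → W z ≤ c)
    (h3 : ∀ s ≠ 0, W s ≤ Real.circleAverage (fun z => W (s - z * s / 2)) 0 1) : W 1 ≤ c := by
  by_contra hw
  push Not at hw
  have m1 : (1 : ℂ) ∈ closedBall (0 : ℂ) R \ ball 0 δ := by
    constructor
    · by_contra h; exact hw.not_ge (h2 1 (not_le.1 (mt mem_closedBall_zero_iff.2 h)).le)
    · intro h; exact hw.not_ge (h1 1 one_ne_zero (by simpa using (mem_ball.1 h).le))
  have hK : UpperSemicontinuousOn W (closedBall (0 : ℂ) R \ ball 0 δ) := fun z hz =>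
    (hu z fun e => hz.2 (by simpa [e] using h0)).upperSemicontinuousWithinAt _
  obtain ⟨s, hs, hm⟩ := UpperSemicontinuousOn.exists_isMaxOn ⟨1, m1⟩
    ((isCompact_closedBall 0 R).diff isOpen_ball) hK
  have s0 : s ≠ 0 := fun e => hs.2 (by simpa [e] using h0)
  have hM : ∀ z ≠ 0, W z ≤ W s := fun z hz => by
    by_cases h : z ∈ closedBall (0 : ℂ) R \ ball 0 δ
    · exact hm h
    · refine le_trans ?_ (hw.le.trans (hm m1))
      simp only [Set.mem_sdiff, mem_closedBall_zero_iff, mem_ball_zero_iff, not_and_or, not_le,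
        not_not] at h
      exact h.elim (fun h => h2 z h.le) fun h => h1 z hz h.le
  have step : ∀ t ≠ 0, W t = W s → W (t / 2) = W s := fun t ht e => by
    set p : ℂ → ℂ := fun z => t - (z / (max 1 ‖z‖ : ℝ)) * t / 2 with hp
    have m0 : ∀ z : ℂ, 0 < max 1 ‖z‖ := fun z => lt_max_of_lt_left one_pos
    have pc : Continuous p := by
      refine continuous_const.sub (((continuous_id.div (by fun_prop) fun z => ?_).mul
        continuous_const).div_const _)
      exact Complex.ofReal_ne_zero.2 (m0 z).ne'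
    have pn : ∀ z, p z ≠ 0 := fun z h => by
      have h4 : ‖z / (max 1 ‖z‖ : ℝ)‖ ≤ 1 := by
        rw [norm_div, Complex.norm_real, Real.norm_of_nonneg (m0 z).le]
        exact div_le_one_of_le₀ (le_max_right _ _) (m0 z).le
      have h5 : z / (max 1 ‖z‖ : ℝ) = 2 := mul_right_cancel₀ ht (by
        simp only [hp] at h; linear_combination -2 * h)
      rw [h5] at h4; norm_num at h4
    have := smax (v := fun z => W (p z)) (c := c) (M := W s)
      (fun z => (hu _ (pn z)).comp pc.continuousAt) (fun z => hc _) (fun z => hM _ (pn z)) (by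
        rw [← e]
        refine (h3 t ht).trans (le_of_eq (Real.circleAverage_congr_sphere fun z hz => ?_))
        have : ‖z‖ = 1 := by simpa using hz
        simp [hp, this])
    rw [← this]
    congr 1
    simp [hp]; ring
  have all : ∀ k : ℕ, W (s / 2 ^ k) = W s := fun k => by
    induction k with
    | zero => simp
    | succ k ih => rw [pow_succ, ← div_div]; exact step _ (by simp [s0]) ih
  obtain ⟨k, hk⟩ := pow_unbounded_of_one_lt (‖s‖ / δ) (one_lt_two (α := ℝ))
  have := h1 (s / 2 ^ k) (by simp [s0]) (by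
    rw [norm_div, norm_pow, Complex.norm_two, div_le_iff₀ (by positivity)]
    rw [div_lt_iff₀ h0] at hk; linarith)
  rw [all] at this
  exact hw.not_ge ((hm m1).trans this)

lemma nopsh {j k : Fin n} (hjk : j ≠ k) {τ Λ : ℝ} (hτ : 0 < τ) {φ : X n → EReal}
    (hφ : OmegaPsh (G j.succ (τ / 2) Λ) φ) {C : ℝ}
    (hC : ∀ᶠ y in 𝓝[≠] (0 : E n), φ (ci 0 y) ≤ (τ * Real.log ‖y - 0‖ + C : ℝ)) : False := by
  obtain ⟨h1, h2, h3, h4⟩ := hφ
  obtain ⟨x, hx, hx1, hx2⟩ := h3.exists_mem_open ((ch (0 : Fin (n + 1))).continuousOn.isOpen_inter_preimage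
    (U_open 0) (isOpen_lt (f := fun y : E n => ‖y j‖) (g := fun y => ‖y k‖) (by fun_prop)
      (by fun_prop))) ⟨ci 0 (Pi.single k 1), ci_mem _ _, by
        show ‖c 0 (ci 0 _) j‖ < ‖c 0 (ci 0 _) k‖
        simp [c_ci, hjk]⟩
  set y : E n := c 0 x with hy
  have hxy : x = ci 0 y := (ci_c hx1).symm
  have hjk' : ‖y j‖ < ‖y k‖ := hx2
  have y0 : y ≠ 0 := fun e => by simp [e] at hjk'
  obtain ⟨x0, -, hx0⟩ := (h1.upperSemicontinuousOn univ).exists_isMaxOn ⟨x, mem_univ x⟩ isCompact_univ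
  have hM : ∀ x, φ x ≤ ((φ x0).toReal : ℝ) := fun x => (hx0 trivial).trans (EReal.le_coe_toReal (h2 _))
  set M := (φ x0).toReal
  have n2s : ∀ t : ℂ, n2 (t • y) = ‖t‖ ^ 2 * n2 y := fun t => by
    simp [n2, Finset.mul_sum, Complex.sq_norm]
  have a0 := n2_nonneg y
  set H : ℂ → ℝ := fun t => τ / 4 * Real.log (1 + n2 (t • y)) - 3 * τ / 4 * Real.log ‖t‖ with hH
  set c0 : ℝ := (φ x).toReal + H 1 - 1 with hc0
  have ht : ∀ t : ℂ, φ (ci 0 (t • y)) + H t ≠ ⊤ := fun t =>
    (EReal.add_lt_top (h2 _) (EReal.coe_ne_top _)).ne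
  have le : ∀ (t : ℂ) (b : ℝ), φ (ci 0 (t • y)) ≤ b → b + H t ≤ c0 →
      (max (φ (ci 0 (t • y)) + H t) c0).toReal ≤ c0 := fun t b e1 e2 => by
    rw [max_eq_right ((add_le_add_left e1 _).trans (by exact_mod_cast e2))]; simp
  have Hs : ∀ t : ℂ, t ≠ 0 → ContDiffAt ℝ ∞ H t := fun t ht =>
    (contDiffAt_const.mul ((contDiff_const.add (n2_smooth.comp (f := fun t : ℂ => t • y)
      (by fun_prop))).contDiffAt.log
      (add_pos_of_pos_of_nonneg one_pos (n2_nonneg (t • y))).ne')).sub (contDiffAt_const.mul ((contDiffAt_norm ℝ ht).log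
        (norm_ne_zero_iff.2 ht)))
  obtain ⟨δ, d0, hδ⟩ : ∃ δ > 0, ∀ t : ℂ, t ≠ 0 → ‖t‖ ≤ δ →
      (max (φ (ci 0 (t • y)) + H t) c0).toReal ≤ c0 := by
    have t1 : Tendsto (fun t : ℂ => t • y) (𝓝[≠] 0) (𝓝[≠] 0) := tendsto_nhdsWithin_iff.2
      ⟨by simpa using (Continuous.tendsto (f := fun t : ℂ => t • y) (by fun_prop) 0).mono_left
            (nhdsWithin_le_nhds (s := {0}ᶜ)),
        eventually_mem_nhdsWithin.mono fun t ht => smul_ne_zero ht y0⟩
    have t2 : Tendsto (fun t : ℂ => Real.log ‖t‖) (𝓝[≠] 0) atBot :=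
      Real.tendsto_log_nhdsGT_zero.comp tendsto_norm_nhdsNE_zero
    have t3 : ∀ᶠ t : ℂ in 𝓝[≠] 0, ‖t‖ < 1 := nhdsWithin_le_nhds (by
      filter_upwards [ball_mem_nhds (0:ℂ) one_pos] with t ht using mem_ball_zero_iff.1 ht)
    have := (t1.eventually hC).and ((t2.eventually (eventually_le_atBot
      ((c0 - C - τ * Real.log ‖y‖ - τ / 4 * Real.log (1 + n2 y)) / (τ / 4)))).and t3)
    obtain ⟨δ, d0, hδ⟩ := Metric.eventually_nhds_iff.1 (eventually_nhdsWithin_iff.1 this)
    refine ⟨δ / 2, half_pos d0, fun t ht ht' => ?_⟩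
    obtain ⟨e1, e2, e3⟩ := hδ (y := t) (by rw [dist_zero_right]; linarith) ht
    refine le t _ e1 ?_
    rw [le_div_iff₀ (by positivity)] at e2
    have : Real.log (1 + n2 (t • y)) ≤ Real.log (1 + n2 y) := Real.log_le_log
      (by linarith [n2_nonneg (t • y)]) (by
        rw [n2s]; nlinarith [pow_le_one₀ (n := 2) (norm_nonneg t) e3.le])
    rw [sub_zero, norm_smul, Real.log_mul (norm_ne_zero_iff.2 ht) (norm_ne_zero_iff.2 y0)]
    simp only [hH]
    nlinarith
  obtain ⟨R, hR⟩ : ∃ R, ∀ t : ℂ, R ≤ ‖t‖ → (max (φ (ci 0 (t • y)) + H t) c0).toReal ≤ c0 := by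
    refine ⟨max 1 (Real.exp ((M + τ / 4 * Real.log (1 + n2 y) - c0) / (τ / 4))), fun t ht => ?_⟩
    rw [max_le_iff] at ht
    have t0 : 0 < ‖t‖ := by linarith
    have e2 := (Real.le_log_iff_exp_le t0).2 ht.2
    rw [div_le_iff₀ (by positivity)] at e2
    refine le t _ (hM _) ?_
    have : Real.log (1 + n2 (t • y)) ≤ Real.log (‖t‖ ^ 2 * (1 + n2 y)) := Real.log_le_log
      (by linarith [n2_nonneg (t • y)]) (by rw [n2s]; nlinarith)
    rw [Real.log_mul (by positivity) (by positivity), Real.log_pow] at this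
    simp only [hH]
    push_cast at this
    nlinarith
  have := oned (W := fun t => (max (φ (ci 0 (t • y)) + H t) c0).toReal) (c := c0)
    (fun t ht => usc_tr ((h1 _).comp ((ci_cont 0).comp (by fun_prop)).continuousAt)
      (Hs t ht).continuousAt (fun _ => h2 _) c0)
    (fun t => by
      have := le_max_right (φ (ci 0 (t • y)) + H t) c0
      rw [← tr_eq _ (ht t)] at this
      exact_mod_cast this) d0 hδ hR fun t ht0 => by
      have e : ∀ z : ℂ, t • y + z • (-(t / 2)) • y = (t - z * t / 2) • y := fun z => by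
        rw [smul_smul, ← add_smul]; congr 1; ring
      have pn : ∀ z ∈ ball (0 : ℂ) (3 / 2), t - z * t / 2 ≠ 0 := fun z hz h => by
        have h5 : z = 2 := mul_right_cancel₀ ht0 (by linear_combination -2 * h)
        rw [h5] at hz; norm_num at hz
      have := h4 (ch 0) (mem_range_self _) (t • y) (-(t / 2) • y) (fun z => H (t - z * t / 2))
        (3 / 2) (by norm_num) (fun _ _ => trivial)
        (fun z hz => ((Hs _ (pn z hz)).comp z (f := fun z : ℂ => t - z * t / 2)
          (by fun_prop)).contDiffWithinAt) (fun z hz => ?_) c0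
      · simp only [e, zero_mul, zero_div, sub_zero] at this
        exact this
      set g : Fin (n + 1) → ℂ → ℂ := fun m w => s 0 (t • y) m + w * ds 0 (-(t / 2) • y) m with hg
      have ga : ∀ m, AnalyticAt ℂ (g m) z := fun m => by simp only [hg]; fun_prop
      have gs : ∀ w, (fun m => g m w) = s 0 ((t - w * t / 2) • y) := fun w => by
        rw [← e, s_add]; rfl
      have gN : ∀ w, N g w = 1 + n2 ((t - w * t / 2) • y) := fun w => by
        rw [← n2_s 0, ← gs]; simp [N, n2, Complex.normSq_apply, sq]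
      have gd : (fun m => deriv (g m) z) = ds 0 (-(t / 2) • y) := by
        funext m; simp [hg]
      have N0 : 0 < N g z := by rw [gN]; linarith [n2_nonneg ((t - z * t / 2) • y)]
      have hh := AnalyticAt.harmonicAt_log_norm (f := fun z => t - z * t / 2) (z := z)
        (by fun_prop) (pn z hz)
      have c1 := (cN ga).log N0.ne'
      have e1 : (fun z => H (t - z * t / 2)) = (τ / 4) • (fun w => Real.log (N g w)) +
          (-(3 * τ / 4)) • fun w => Real.log ‖t - w * t / 2‖ := by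
        funext w; simp only [hH, gN, Pi.add_apply, Pi.smul_apply, smul_eq_mul]; ring
      have b0 : bump j.succ ((ch (0 : Fin (n + 1))).symm ((t - z * t / 2) • y)) = 0 := by
        refine expNegInvGlue.zero_of_nonpos ?_
        generalize t - z * t / 2 = u
        have h6 : s 0 (u • y) j.succ = u * y j := by simpa using s_1 0 (u • y) j
        have h7 : Complex.normSq (u * y j) + Complex.normSq (u * y k) ≤ n2 (u • y) := by
          have := Finset.sum_le_sum_of_subset_of_nonneg (Finset.subset_univ {j, k})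
            fun i _ _ => Complex.normSq_nonneg ((u • y) i)
          rwa [Finset.sum_pair hjk] at this
        have h8 : Complex.normSq (u * y j) ≤ Complex.normSq (u * y k) := by
          simp only [← Complex.sq_norm, norm_mul]; gcongr
        erw [ent_ci]
        rw [h6, sub_nonpos, div_le_iff₀ (by linarith [n2_nonneg (u • y)])]
        linarith
      rw [e1, ContDiffAt.laplacian_add (f₁ := (τ / 4) • fun w => Real.log (N g w))
        (f₂ := (-(3 * τ / 4)) • fun w => Real.log ‖t - w * t / 2‖) (c1.const_smul (τ / 4))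
        (hh.1.const_smul (-(3 * τ / 4))),
        InnerProductSpace.laplacian_smul _ c1, InnerProductSpace.laplacian_smul _ hh.1,
        hh.2.eq_of_nhds, lapLog ga N0, gs, gd, e, G, b0, form_smul, form, FS_form 0]
      simp
      linarith
  simp only [one_smul, ← hxy] at this
  rw [← EReal.coe_toReal (h2 x) hx, ← EReal.coe_add, max_eq_left (by
    rw [hc0]; exact_mod_cast (by linarith)), EReal.toReal_coe] at this
  linarith

theorem result (n : ℕ) (hn : 2 ≤ n) : ∃ (X : Type) (_ : TopologicalSpace X) (_ : T2Space X)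
    (_ : CompactSpace X) (_ : ConnectedSpace X) (_ : ChartedSpace (Fin n → ℂ) X)
    (_ : IsManifold 𝓘(ℂ, Fin n → ℂ) ω X), ∀ τ > (0 : ℝ),
    ∃ G : OpenPartialHomeomorph X (Fin n → ℂ) → (Fin n → ℂ) → Matrix (Fin n) (Fin n) ℂ, Herm G ∧
      ∃ e ∈ atlas (Fin n → ℂ) X, ∃ a ∈ e.target,
        ENNReal.ofReal (τ ^ n) < ∫⁻ y in e.target,
          ENNReal.ofReal (n.factorial * (2 / Real.pi) ^ n * (G e y).det.re) ∧
        ¬∃ φ, OmegaPsh G φ ∧
          ∃ C : ℝ, ∀ᶠ y in 𝓝[≠] a, φ (e.symm y) ≤ (τ * Real.log ‖y - a‖ + C : ℝ) := by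
  refine ⟨X n, inferInstance, inferInstance, inferInstance, inferInstance, inferInstance,
    inferInstance, fun τ hτ => ?_⟩
  obtain ⟨Λ, h0, h1⟩ := volume_big (⟨0, by omega⟩ : Fin n) (half_pos hτ) (τ ^ n)
  exact ⟨_, herm _ (half_pos hτ) h0, ch 0, mem_range_self _, 0, trivial, h1,
    fun ⟨φ, h2, C, h3⟩ => nopsh (k := ⟨1, by omega⟩) (by simp) hτ h2 h3⟩

end Pool.Agent.Results.MP_629fd3_an.Counter
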